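import Pool.Agent.Sch2.Ones

/-!
# The number of members and the number of exceptional members of a family
-/

set_option autoImplicit false

namespace Pool.Agent.Sch2

open Finset
open Pool.Agent.SchK

section

variable {y : ℕ → ℕ} {l : ℕ}

lemma cl_add_le (hy : ∀ u < l, y (u + 1) < y u) (i : ℕ) (hi : i ≤ l) :
    cl y i + 2 ^ y i ≤ 2 ^ (y 0 + 1) := by
  induction i with
  | zero =>
    rw [cl_zero, pow_succ]
    omega
  | succ i ih =>
    have h1 := ih (by omega)
    have h2 : 2 ^ y (i + 1) + 2 ^ y (i + 1) ≤ 2 ^ y i := by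
      have h3 : 2 ^ y (i + 1) + 2 ^ y (i + 1) = 2 ^ (y (i + 1) + 1) := by ring
      rw [h3]
      exact Nat.pow_le_pow_right (by norm_num) (hy i (by omega))
    rw [cl_succ]
    omega

lemma cl_lt (hy : ∀ u < l, y (u + 1) < y u) {i : ℕ} (hi : i ≤ l) : cl y i < 2 ^ (y 0 + 1) := by
  have h1 := cl_add_le hy i hi
  have h2 : 1 ≤ 2 ^ y i := Nat.one_le_two_pow
  omega

lemma cl_pos (y : ℕ → ℕ) (i : ℕ) : 1 ≤ cl y i := by
  unfold cl
  rw [sum_range_succ]
  have : 1 ≤ 2 ^ y i := Nat.one_le_two_pow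
  omega

lemma ml_lt (hy : ∀ u < l, y (u + 1) < y u) {ε d : ℕ → ℕ} {p : ℕ} (hε : ∀ t < p, ε t ≤ l)
    (hd : ∀ t < p, y 0 + 1 ≤ d t) : ∀ t, t ≤ p →
    ml y ε d t < 2 ^ (y 0 + ∑ u ∈ range t, d u + 1) := by
  intro t
  induction t with
  | zero =>
    intro _
    simp only [ml, range_zero, sum_empty, add_zero]
    exact Nat.pow_lt_pow_right (by norm_num) (by omega)
  | succ t ih =>
    intro ht
    have h1 := ih (by omega)
    have h2 := cl_lt hy (hε t (by omega))
    have h3 : 2 ^ (y 0 + 1) ≤ 2 ^ d t := Nat.pow_le_pow_right (by norm_num) (hd t (by omega))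
    have h4 : 2 ^ (y 0 + ∑ u ∈ range (t + 1), d u + 1) =
        2 ^ d t * 2 ^ (y 0 + ∑ u ∈ range t, d u + 1) := by
      rw [sum_range_succ, ← pow_add]
      congr 1
      ring
    rw [h4]
    simp only [ml]
    calc 2 ^ d t * ml y ε d t + cl y (ε t) < 2 ^ d t * ml y ε d t + 2 ^ d t := by omega
      _ = 2 ^ d t * (ml y ε d t + 1) := by ring
      _ ≤ 2 ^ d t * 2 ^ (y 0 + ∑ u ∈ range t, d u + 1) := Nat.mul_le_mul_left _ h1

/-- the last block of a member -/
lemma ml_mod (hy : ∀ u < l, y (u + 1) < y u) {ε d : ℕ → ℕ} {t A : ℕ} (hε : ε t ≤ l)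
    (hA : y 0 + 1 ≤ A) (hd : A ≤ d t) : ml y ε d (t + 1) % 2 ^ A = cl y (ε t) := by
  have h1 : cl y (ε t) < 2 ^ A :=
    (cl_lt hy hε).trans_le (Nat.pow_le_pow_right (by norm_num) hA)
  have h2 : 2 ^ d t * ml y ε d t = 2 ^ A * (2 ^ (d t - A) * ml y ε d t) := by
    rw [← mul_assoc, ← pow_add, show A + (d t - A) = d t by omega]
  simp only [ml]
  rw [h2, Nat.mul_add_mod, Nat.mod_eq_of_lt h1]

lemma le_of_mod {A w a d d' x x' β β' : ℕ} (h1 : 2 ^ a ≤ β) (h2 : β < 2 ^ (a + 1))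
    (h2' : β' < 2 ^ (a + 1)) (hA : a + w ≤ A) (hx : x % 2 ^ A = β) (hx' : x' % 2 ^ A = β')
    (hd : d < d' + w) (h : 2 ^ d * x = 2 ^ d' * x') : d ≤ d' := by
  by_contra hc
  obtain ⟨e, he⟩ : ∃ e, d = d' + (e + 1) := ⟨d - d' - 1, by omega⟩
  subst he
  have h3 : 2 ^ (e + 1) * x = x' := by
    have h4 : 2 ^ (d' + (e + 1)) * x = 2 ^ d' * (2 ^ (e + 1) * x) := by
      rw [pow_add, mul_assoc]
    rw [h4] at h
    exact Nat.eq_of_mul_eq_mul_left (by positivity) h
  have h5 : 2 ^ (e + 1) * β < 2 ^ A := by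
    calc 2 ^ (e + 1) * β < 2 ^ (e + 1) * 2 ^ (a + 1) :=
          Nat.mul_lt_mul_of_pos_left h2 (by positivity)
      _ = 2 ^ (e + 1 + (a + 1)) := by rw [← pow_add]
      _ ≤ 2 ^ A := Nat.pow_le_pow_right (by norm_num) (by omega)
  have h6 : x' % 2 ^ A = 2 ^ (e + 1) * β := by
    have h8 : (2 ^ (e + 1) * x) % 2 ^ A = (2 ^ (e + 1) * (x % 2 ^ A)) % 2 ^ A :=
      (Nat.ModEq.mul_left _ (Nat.mod_modEq x (2 ^ A))).symm
    rw [← h3, h8, hx, Nat.mod_eq_of_lt h5]
  rw [hx'] at h6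
  have h7 : 2 ^ (a + 1) ≤ 2 ^ (e + 1) * β := by
    calc 2 ^ (a + 1) = 2 * 2 ^ a := by ring
      _ ≤ 2 ^ (e + 1) * β := Nat.mul_le_mul (by
        have : 2 ^ 1 ≤ 2 ^ (e + 1) := Nat.pow_le_pow_right (by norm_num) (by omega)
        omega) h1
  omega

lemma cl_ge (y : ℕ → ℕ) (i : ℕ) : 2 ^ y 0 ≤ cl y i := by
  unfold cl
  exact single_le_sum (f := fun u => 2 ^ y u) (fun u _ => Nat.zero_le _)
    (mem_range.2 (Nat.succ_pos i))

/-- the residue modulo `2 ^ A` of an element of the main line -/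
lemma ml_res (hy : ∀ u < l, y (u + 1) < y u) {ε d : ℕ → ℕ} {p A : ℕ} (hε : ∀ t < p, ε t ≤ l)
    (hA : y 0 + 1 ≤ A) (hd : ∀ t < p, A ≤ d t) {t : ℕ} (ht : t ≤ p) :
    2 ^ y 0 ≤ ml y ε d t % 2 ^ A ∧ ml y ε d t % 2 ^ A < 2 ^ (y 0 + 1) := by
  rcases t with _ | t
  · have h2 : 2 ^ y 0 < 2 ^ A := Nat.pow_lt_pow_right (by norm_num) hA
    simp only [ml]
    rw [Nat.mod_eq_of_lt h2]
    exact ⟨le_rfl, Nat.pow_lt_pow_right (by norm_num) (by omega)⟩
  · rw [ml_mod hy (hε t (by omega)) hA (hd t (by omega))]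
    exact ⟨cl_ge _ _, cl_lt hy (hε t (by omega))⟩

/-- a member determines its parameters -/
lemma decode {y' : ℕ → ℕ} (hy : ∀ u < l, y (u + 1) < y u) (hy' : ∀ u < l, y' (u + 1) < y' u)
    {ε d d' : ℕ → ℕ} {p A w : ℕ} (hε : ∀ t < p, ε t ≤ l) (hA : y 0 + 1 + w ≤ A)
    (hA' : y' 0 + 1 + w ≤ A) (hd : ∀ t < p, A ≤ d t) (hd' : ∀ t < p, A ≤ d' t)
    (hdw : ∀ t < p, d t < A + w) (hdw' : ∀ t < p, d' t < A + w) :
    ∀ t, t ≤ p → ml y ε d t = ml y' ε d' t →
      ∀ u < t, d u = d' u ∧ cl y (ε u) = cl y' (ε u) := by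
  intro t
  induction t with
  | zero => intro _ _ u hu; omega
  | succ t ih =>
    intro ht h u hu
    have h1 := ml_mod (d := d) hy (hε t (by omega)) (A := A) (by omega) (hd t (by omega))
    have h1' := ml_mod (d := d') hy' (hε t (by omega)) (A := A) (by omega) (hd' t (by omega))
    have h2 : cl y (ε t) = cl y' (ε t) := by rw [← h1, ← h1', h]
    have h3 : y 0 = y' 0 := by
      have h4 := cl_lt hy (hε t (by omega))
      have h5 := cl_lt hy' (hε t (by omega))
      have h6 := cl_ge y (ε t)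
      have h7 := cl_ge y' (ε t)
      have h8 : y 0 < y' 0 + 1 :=
        (Nat.pow_lt_pow_iff_right (a := 2) (by norm_num)).1 (by omega)
      have h9 : y' 0 < y 0 + 1 :=
        (Nat.pow_lt_pow_iff_right (a := 2) (by norm_num)).1 (by omega)
      omega
    have h4 : 2 ^ d t * ml y ε d t = 2 ^ d' t * ml y' ε d' t := by
      simp only [ml] at h
      omega
    obtain ⟨h5, h6⟩ := ml_res hy hε (A := A) (by omega) hd (t := t) (by omega)
    obtain ⟨h5', h6'⟩ := ml_res hy' hε (A := A) (by omega) hd' (t := t) (by omega)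
    rw [← h3] at h5' h6'
    have g1 := hd t (by omega)
    have g2 := hd' t (by omega)
    have g3 := hdw t (by omega)
    have g4 := hdw' t (by omega)
    have h7 : d t = d' t := le_antisymm
      (le_of_mod (w := w) h5 h6 h6' (by omega) rfl rfl (by omega) h4)
      (le_of_mod (w := w) h5' h6' h6 (by omega) rfl rfl (by omega) h4.symm)
    rcases Nat.lt_or_ge u t with hu' | hu'
    · refine ih (by omega) ?_ u hu'
      rw [h7] at h4
      exact Nat.eq_of_mul_eq_mul_left (by positivity) h4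
    · obtain rfl : u = t := by omega
      exact ⟨h7, h2⟩

end

/-! ### Members with given digits -/

/-- the exponents of the cluster -/
def YY (l w : ℕ) (z : Fin (l + 1) → ℕ) (u : ℕ) : ℕ :=
  if h : u < l + 1 then (l - u) * w + z ⟨u, h⟩ else 0

/-- the numbers of doublings -/
def DD (p A : ℕ) (δ : Fin p → ℕ) (t : ℕ) : ℕ := if h : t < p then A + δ ⟨t, h⟩ else 0

lemma YY_anti {l w : ℕ} {z : Fin (l + 1) → ℕ} (hz : ∀ i, z i < w) :
    ∀ u < l, YY l w z (u + 1) < YY l w z u := by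
  intro u hu
  unfold YY
  rw [dif_pos (by omega), dif_pos (by omega)]
  have h1 := hz ⟨u + 1, by omega⟩
  have h2 : (l - u) * w = (l - (u + 1)) * w + w := by
    rw [show l - u = (l - (u + 1)) + 1 by omega]
    ring
  omega

lemma YY_inj {l w : ℕ} {z z' : Fin (l + 1) → ℕ} (hz : ∀ i, z i < w) (hz' : ∀ i, z' i < w)
    (h : cl (YY l w z) l = cl (YY l w z') l) : z = z' := by
  classical
  have hdiv : ∀ (x : Fin (l + 1) → ℕ), (∀ i, x i < w) → ∀ u (hu : u < l + 1),
      YY l w x u / w = l - u ∧ YY l w x u % w = x ⟨u, hu⟩ := by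
    intro x hx u hu
    unfold YY
    rw [dif_pos hu]
    have h1 := hx ⟨u, hu⟩
    have hw : 0 < w := by omega
    constructor
    · rw [mul_comm, Nat.mul_add_div hw, Nat.div_eq_of_lt h1, add_zero]
    · rw [mul_comm, Nat.mul_add_mod, Nat.mod_eq_of_lt h1]
  have himg : ∀ (x : Fin (l + 1) → ℕ), (∀ i, x i < w) →
      cl (YY l w x) l = ∑ v ∈ (range (l + 1)).image (YY l w x), 2 ^ v := by
    intro x hx
    unfold cl
    rw [sum_image]
    intro u hu v hv huv
    have hu' : u < l + 1 := mem_range.1 hu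
    have hv' : v < l + 1 := mem_range.1 hv
    have h1 := (hdiv x hx u hu').1
    have h2 := (hdiv x hx v hv').1
    have huv' : YY l w x u = YY l w x v := huv
    rw [huv', h2] at h1
    omega
  rw [himg z hz, himg z' hz'] at h
  have h1 := Finset.geomSum_injective (n := 2) le_rfl h
  funext i
  have h2 : YY l w z i ∈ (range (l + 1)).image (YY l w z') := by
    rw [← h1]
    exact mem_image_of_mem _ (mem_range.2 i.2)
  obtain ⟨v, hv, hvi⟩ := mem_image.1 h2
  have hv' : v < l + 1 := mem_range.1 hv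
  have h3 := hdiv z hz i i.2
  have h4 := hdiv z' hz' v hv'
  rw [hvi] at h4
  have h5 : (i : ℕ) = v := by
    have := h3.1
    have := h4.1
    have := i.2
    omega
  have h6 : z ⟨i, i.2⟩ = z' ⟨v, hv'⟩ := by rw [← h3.2, ← h4.2]
  subst h5
  exact h6

open Classical in
/-- the number of members below `2 ^ N` -/
theorem card_fam_ge (l p N : ℕ) (ε : ℕ → ℕ) (hε : ∀ t < p, ε t ≤ l) (hl : ∃ t < p, ε t = l) :
    (N / ((p + 1) * (l + 3))) ^ (l + p + 1) ≤
      ((range (2 ^ N)).filter (fun n => Fam l p ε n ∧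
        ones n = p + 1 + ∑ t ∈ range p, ε t)).card := by
  obtain ⟨w, hw⟩ : ∃ w, w = N / ((p + 1) * (l + 3)) := ⟨_, rfl⟩
  rw [← hw]
  have hwN : (p + 1) * (l + 3) * w ≤ N := by
    rw [hw]
    exact Nat.mul_div_le _ _
  obtain ⟨A, hA⟩ : ∃ A, A = (l + 2) * w := ⟨_, rfl⟩
  have h1 : ((Fintype.piFinset fun _ : Fin (l + 1) => range w) ×ˢ
      (Fintype.piFinset fun _ : Fin p => range w)).card = w ^ (l + p + 1) := by
    rw [card_product, Fintype.card_piFinset, Fintype.card_piFinset]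
    simp only [card_range, prod_const, card_univ, Fintype.card_fin]
    rw [← pow_add]
    congr 1
    ring
  have hy0 : ∀ x : Fin (l + 1) → ℕ, (∀ i, x i < w) → YY l w x 0 + 1 + w ≤ A := by
    intro x hx
    unfold YY
    rw [dif_pos (by omega), hA, Nat.sub_zero]
    have := hx ⟨0, by omega⟩
    have h2 : (l + 2) * w = l * w + w + w := by ring
    omega
  have hd : ∀ (x : Fin p → ℕ), ∀ t < p, A ≤ DD p A x t := by
    intro x t ht
    unfold DD
    rw [dif_pos ht]
    omega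
  have hdw : ∀ (x : Fin p → ℕ), (∀ i, x i < w) → ∀ t < p, DD p A x t < A + w := by
    intro x hx t ht
    unfold DD
    rw [dif_pos ht]
    have := hx ⟨t, ht⟩
    omega
  rw [← h1]
  refine card_le_card_of_injOn (fun q => ml (YY l w q.1) ε (DD p A q.2) p) ?_ ?_
  · rintro ⟨z, δ⟩ hq
    rw [mem_coe, mem_product, Fintype.mem_piFinset, Fintype.mem_piFinset] at hq
    simp only [mem_range] at hq
    obtain ⟨hz, hδ⟩ := hq
    have hy := YY_anti hz
    have hy0z := hy0 z hz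
    rw [mem_coe, mem_filter, mem_range]
    refine ⟨?_, ⟨YY l w z, DD p A δ, hy, fun t ht => ?_, rfl⟩, ?_⟩
    · refine (ml_lt hy hε (fun t ht => ?_) p le_rfl).trans_le ?_
      · exact (show YY l w z 0 + 1 ≤ A by omega).trans (hd δ t ht)
      apply Nat.pow_le_pow_right (by norm_num)
      have h2 : ∑ u ∈ range p, DD p A δ u ≤ p * (A + w) := by
        calc ∑ u ∈ range p, DD p A δ u ≤ ∑ _u ∈ range p, (A + w) := by
              apply sum_le_sum
              intro u hu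
              exact (hdw δ hδ u (mem_range.1 hu)).le
          _ = p * (A + w) := by simp
      have h3 : A + p * (A + w) ≤ (p + 1) * (l + 3) * w := by
        calc A + p * (A + w) ≤ A + p * (A + w) + w := Nat.le_add_right _ _
          _ = (p + 1) * (l + 3) * w := by rw [hA]; ring
      show YY l w z 0 + ∑ u ∈ range p, DD p A δ u + 1 ≤ N
      omega
    · exact (show 1 ≤ A by omega).trans (hd δ t ht)
    · exact ones_ml hy hε (fun t ht => (show YY l w z 0 + 1 ≤ A by omega).trans (hd δ t ht))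
        (fun i hi => cl_lt hy hi) p le_rfl
  · rintro ⟨z, δ⟩ hq ⟨z', δ'⟩ hq' h
    rw [mem_coe, mem_product, Fintype.mem_piFinset, Fintype.mem_piFinset] at hq hq'
    simp only [mem_range] at hq hq'
    obtain ⟨hz, hδ⟩ := hq
    obtain ⟨hz', hδ'⟩ := hq'
    have h' : ml (YY l w z) ε (DD p A δ) p = ml (YY l w z') ε (DD p A δ') p := h
    have h2 := decode (YY_anti hz) (YY_anti hz') hε (hy0 z hz) (hy0 z' hz') (hd δ) (hd δ')
      (hdw δ hδ) (hdw δ' hδ') p le_rfl h'
    obtain ⟨t, ht, hεt⟩ := hl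
    have h3 := (h2 t ht).2
    rw [hεt] at h3
    have h4 : z = z' := YY_inj hz hz' h3
    have h6 : δ = δ' := by
      funext i
      have h7 := (h2 i i.2).1
      unfold DD at h7
      rw [dif_pos i.2, dif_pos i.2] at h7
      simp only [Fin.eta] at h7
      omega
    rw [h4, h6]

open Classical in
/-- the number of exceptional members below `2 ^ N` -/
theorem card_exc_le (s N : ℕ) (hs : 1 ≤ s) (hN : 1 ≤ N) (P : ℕ → Prop)
    (hP : ∀ n, P n → ∃ l p ε, l + p = s ∧ 1 ≤ p ∧ (∀ t < p, ε t ≤ l) ∧ Fam l p ε n) :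
    ((range (2 ^ N)).filter (fun n => P n ∧ ¬ (len n = Nat.log 2 n + s ∧
      len (2 ^ n - 1) ≤ n - 1 + len n))).card ≤ 2 ^ (32 * s ^ 2) * N ^ s := by
  obtain ⟨r, rfl⟩ : ∃ r, s = r + 1 := ⟨s - 1, by omega⟩
  refine (card_le_card (t := (range (2 ^ N)).filter (fun n => 1 ≤ n ∧ ∃ q a,
      q ≤ Nat.log 2 n + r ∧ IsChain n q a)) ?_).trans ((card_short_le r N hN).trans ?_)
  · intro n hn
    rw [mem_filter] at hn ⊢
    obtain ⟨hn1, hn2, hn3⟩ := hn
    obtain ⟨l, p, ε, hlp, hp, hε, hF⟩ := hP n hn2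
    refine ⟨hn1, ?_, ?_⟩
    · obtain ⟨y, d, -, -, rfl⟩ := hF
      exact Nat.one_le_two_pow.trans (two_pow_le_ml y ε d p)
    · by_contra hc
      apply hn3
      rw [← hlp, ← add_assoc]
      apply hF.scholz hε hp
      rw [show l + p - 1 = r by omega]
      exact hc
  · apply Nat.mul_le_mul_right
    apply Nat.pow_le_pow_right two_pos
    nlinarith

end Pool.Agent.Sch2
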