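import Pool.Agent.SchK.Defs

/-!
# MP_aa5fad_nt: families of integers with a cluster of side elements
-/

set_option autoImplicit false

namespace Pool.Agent.Sch2

open Finset

/-- the cluster: `cl y i = 2 ^ y 0 + 2 ^ y 1 + ... + 2 ^ y i` -/
def cl (y : ℕ → ℕ) (i : ℕ) : ℕ := ∑ u ∈ range (i + 1), 2 ^ y u

/-- the main line: `m 0 = 2 ^ y 0` and `m (t + 1) = 2 ^ d t * m t + cl y (ε t)` -/
def ml (y ε d : ℕ → ℕ) : ℕ → ℕ
  | 0 => 2 ^ y 0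
  | t + 1 => 2 ^ d t * ml y ε d t + cl y (ε t)

/-- `n` is in the family of the word `ε 0, ..., ε (p - 1)`: for some `y 0 > y 1 > ... > y l` and
`d 0, ..., d (p - 1) ≥ 1` one has `n = ml y ε d p` -/
def Fam (l p : ℕ) (ε : ℕ → ℕ) (n : ℕ) : Prop :=
  ∃ y d : ℕ → ℕ, (∀ u < l, y (u + 1) < y u) ∧ (∀ t < p, 1 ≤ d t) ∧ n = ml y ε d p

end Pool.Agent.Sch2
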