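import Pool.Agent.SchK.Count
import Pool.Agent.Sch2.Defs

/-!
# Closed sets of integers and addition chains; the lifting of a family to `2 ^ n - 1`
-/

set_option autoImplicit false

namespace Pool.Agent.Sch2

open Finset
open Pool.Agent.SchK

/-- a finite set of positive integers with at most `c` elements which contains `1`, every other
element being a sum of two elements -/
structure Good (X : Finset ℕ) (c : ℕ) : Prop where
  one : 1 ∈ X
  pos : ∀ x ∈ X, 1 ≤ x
  add : ∀ x ∈ X, x ≠ 1 → ∃ y ∈ X, ∃ z ∈ X, x = y + z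
  card : X.card ≤ c

lemma good_one : Good {1} 1 := ⟨by simp, by simp, by simp, by simp⟩

lemma Good.mono {X : Finset ℕ} {c c' : ℕ} (h : Good X c) (hc : c ≤ c') : Good X c' :=
  ⟨h.one, h.pos, h.add, h.card.trans hc⟩

lemma Good.ins {X : Finset ℕ} {c y z : ℕ} (h : Good X c) (hy : y ∈ X) (hz : z ∈ X) :
    Good (insert (y + z) X) (c + 1) := by
  refine ⟨mem_insert_of_mem h.one, ?_, ?_, (card_insert_le _ _).trans (by have := h.card; omega)⟩
  · intro x hx
    rcases mem_insert.1 hx with rfl | hx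
    · have := h.pos y hy
      omega
    · exact h.pos x hx
  · intro x hx hx1
    rcases mem_insert.1 hx with rfl | hx
    · exact ⟨y, mem_insert_of_mem hy, z, mem_insert_of_mem hz, rfl⟩
    · obtain ⟨u, hu, v, hv, huv⟩ := h.add x hx hx1
      exact ⟨u, mem_insert_of_mem hu, v, mem_insert_of_mem hv, huv⟩

lemma Good.shift {X : Finset ℕ} {c y : ℕ} (h : Good X c) (hy : y ∈ X) (u : ℕ) :
    ∃ X', X ⊆ X' ∧ Good X' (c + u) ∧ ∀ v ≤ u, 2 ^ v * y ∈ X' := by
  induction u with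
  | zero =>
    refine ⟨X, Subset.rfl, h, fun v hv => ?_⟩
    obtain rfl : v = 0 := by omega
    simpa using hy
  | succ u ih =>
    obtain ⟨X', h1, h2, h3⟩ := ih
    have h4 := h3 u le_rfl
    refine ⟨insert (2 ^ u * y + 2 ^ u * y) X', h1.trans (subset_insert _ _), h2.ins h4 h4,
      fun v hv => ?_⟩
    rcases Nat.lt_or_ge v (u + 1) with hv' | hv'
    · exact mem_insert_of_mem (h3 v (by omega))
    · obtain rfl : v = u + 1 := by omega
      have : 2 ^ (u + 1) * y = 2 ^ u * y + 2 ^ u * y := by ring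
      rw [this]
      exact mem_insert_self _ _

/-- a closed set with `c` elements gives an addition chain with at most `c - 1` steps -/
theorem Good.chain {X : Finset ℕ} {c n : ℕ} (h : Good X c) (hn : n ∈ X) :
    ∃ r a, r + 1 ≤ c ∧ IsChain n r a := by
  classical
  set Y := X.filter (fun x => x ≤ n) with hY
  have hnY : n ∈ Y := mem_filter.2 ⟨hn, le_rfl⟩
  have h1Y : 1 ∈ Y := mem_filter.2 ⟨h.one, h.pos n hn⟩
  have hpos : 0 < Y.card := card_pos.2 ⟨n, hnY⟩
  obtain ⟨r, hr⟩ : ∃ r, Y.card = r + 1 := ⟨Y.card - 1, by omega⟩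
  set f := Y.orderEmbOfFin hr with hf
  have hmem : ∀ k, f k ∈ Y := fun k => Y.orderEmbOfFin_mem hr k
  have hsurj : ∀ x ∈ Y, ∃ k, f k = x := fun x hx => by
    have h1 : x ∈ Set.range f := by
      rw [hf, Finset.range_orderEmbOfFin]
      exact hx
    exact h1
  refine ⟨r, fun i => if hi : i < r + 1 then f ⟨i, hi⟩ else 0, ?_, ?_, ?_, ?_, ?_⟩
  · rw [← hr]
    exact (card_le_card (filter_subset _ _)).trans h.card
  · simp only [Nat.zero_lt_succ, dif_pos]
    obtain ⟨k, hk⟩ := hsurj 1 h1Y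
    have h1 : f ⟨0, Nat.zero_lt_succ r⟩ ≤ f k := f.monotone (Fin.mk_le_of_le_val (Nat.zero_le _))
    have h2 := h.pos _ (mem_filter.1 (hmem ⟨0, Nat.zero_lt_succ r⟩)).1
    omega
  · simp only [Nat.lt_succ_self, dif_pos]
    obtain ⟨k, hk⟩ := hsurj n hnY
    have h1 : f k ≤ f ⟨r, Nat.lt_succ_self r⟩ := f.monotone (by
      rw [Fin.le_def]
      exact Nat.lt_succ_iff.1 k.2)
    have h2 := (mem_filter.1 (hmem ⟨r, Nat.lt_succ_self r⟩)).2
    omega
  · intro i j hij hj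
    simp only [show i < r + 1 by omega, show j < r + 1 by omega, dif_pos]
    exact f.strictMono (by rw [Fin.lt_def]; exact hij)
  · intro k hk1 hk
    have hk' : k < r + 1 := by omega
    have hx := hmem ⟨k, hk'⟩
    have hx1 : f ⟨k, hk'⟩ ≠ 1 := by
      intro h1
      have h2 : f ⟨0, Nat.zero_lt_succ r⟩ < f ⟨k, hk'⟩ := f.strictMono (by
        rw [Fin.lt_def]; exact hk1)
      have h3 := h.pos _ (mem_filter.1 (hmem ⟨0, Nat.zero_lt_succ r⟩)).1
      omega
    obtain ⟨y, hy, z, hz, hyz⟩ := h.add _ (mem_filter.1 hx).1 hx1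
    have hxn := (mem_filter.1 hx).2
    have hy1 := h.pos y hy
    have hz1 := h.pos z hz
    obtain ⟨i, hi⟩ := hsurj y (mem_filter.2 ⟨hy, by omega⟩)
    obtain ⟨j, hj⟩ := hsurj z (mem_filter.2 ⟨hz, by omega⟩)
    have hik : i < ⟨k, hk'⟩ := by
      by_contra hc
      have := f.monotone (not_lt.1 hc)
      omega
    have hjk : j < ⟨k, hk'⟩ := by
      by_contra hc
      have := f.monotone (not_lt.1 hc)
      omega
    refine ⟨i, j, hik, hjk, ?_⟩
    simp only [hk', dif_pos, i.2, j.2, Fin.eta]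
    rw [hyz, hi, hj]

theorem Good.len_le {X : Finset ℕ} {c n : ℕ} (h : Good X c) (hn : n ∈ X) : len n + 1 ≤ c := by
  obtain ⟨r, a, hr, ha⟩ := h.chain hn
  have : len n ≤ r := Nat.sInf_le ⟨a, ha⟩
  omega

/-! ### Intervals of ones -/

/-- `a` ones in the binary expansion, followed by `o` zeros -/
def F (a o : ℕ) : ℕ := 2 ^ o * (2 ^ a - 1)

lemma F_add (a b o : ℕ) : F (a + b) o = F a (o + b) + F b o := by
  unfold F
  have h1 : 1 ≤ 2 ^ a := Nat.one_le_two_pow
  have h2 : 1 ≤ 2 ^ b := Nat.one_le_two_pow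
  obtain ⟨x, hx⟩ : ∃ x, 2 ^ a = x + 1 := ⟨2 ^ a - 1, by omega⟩
  obtain ⟨z, hz⟩ : ∃ z, 2 ^ b = z + 1 := ⟨2 ^ b - 1, by omega⟩
  rw [pow_add, pow_add, hx, hz]
  have h3 : (x + 1) * (z + 1) - 1 = x * (z + 1) + z := by
    have : (x + 1) * (z + 1) = x * (z + 1) + z + 1 := by ring
    omega
  rw [h3, Nat.add_sub_cancel, Nat.add_sub_cancel]
  ring

lemma F_shift (v a o : ℕ) : 2 ^ v * F a o = F a (o + v) := by
  unfold F
  rw [pow_add]
  ring

/-- a doubling `2 * M` of the chain for `n`, lifted -/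
lemma dbl {X : Finset ℕ} {s M e : ℕ} (h : Good X (M + e + s)) (h0 : F M 0 ∈ X)
    (he : F M e ∈ X) (hle : e ≤ M) :
    ∃ X', X ⊆ X' ∧ Good X' (2 * M + (s + 1)) ∧ F (2 * M) 0 ∈ X' ∧ ∀ v, e ≤ v → v ≤ M →
      F M v ∈ X' := by
  obtain ⟨X', h1, h2, h3⟩ := h.shift he (M - e)
  have h4 := h3 (M - e) le_rfl
  rw [F_shift, show e + (M - e) = M by omega] at h4
  refine ⟨insert (F M M + F M 0) X', h1.trans (subset_insert _ _),
    (h2.ins h4 (h1 h0)).mono (by omega), ?_, fun v hv hv' => mem_insert_of_mem ?_⟩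
  · have h5 : F (M + M) 0 = F M M + F M 0 := by
      rw [F_add, zero_add]
    rw [two_mul, h5]
    exact mem_insert_self _ _
  · have h5 := h3 (v - e) (by omega)
    rwa [F_shift, show e + (v - e) = v by omega] at h5

/-- the two steps `2 * M`, `2 * M + w` of the chain for `n`, lifted in the order
`M + w`, `(M + w) + M` -/
lemma ins2 {X : Finset ℕ} {s M e w o : ℕ} (h : Good X (M + e + s)) (h0 : F M 0 ∈ X)
    (he : F M e ∈ X) (hw : F w o ∈ X) (hle : e ≤ o + w) (ho : o ≤ M) :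
    ∃ X', X ⊆ X' ∧ Good X' (2 * M + w + (s + 2)) ∧ F (2 * M + w) 0 ∈ X' := by
  obtain ⟨X', h1, h2, h3⟩ := h.shift he (o + w - e)
  have h4 := h3 (o + w - e) le_rfl
  rw [F_shift, show e + (o + w - e) = o + w by omega] at h4
  have h5 := h2.ins h4 (h1 hw)
  have h6 : F (M + w) o ∈ insert (F M (o + w) + F w o) X' := by
    rw [F_add]
    exact mem_insert_self _ _
  obtain ⟨X'', h7, h8, h9⟩ := h5.shift h6 (M - o)
  have h10 := h9 (M - o) le_rfl
  rw [F_shift, show o + (M - o) = M by omega] at h10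
  refine ⟨insert (F (M + w) M + F M 0) X'', ?_, (h8.ins h10 (h7 (mem_insert_of_mem
    (h1 h0)))).mono (by omega), ?_⟩
  · exact h1.trans ((subset_insert _ _).trans (h7.trans (subset_insert _ _)))
  · have h11 : F (2 * M + w) 0 = F (M + w) M + F M 0 := by
      rw [show 2 * M + w = (M + w) + M by ring, F_add, zero_add]
    rw [h11]
    exact mem_insert_self _ _

/-- several doubling steps -/
lemma dbls {X : Finset ℕ} {s M : ℕ} (h : Good X (M + s)) (h0 : F M 0 ∈ X) (d : ℕ) :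
    ∃ X', X ⊆ X' ∧ Good X' (2 ^ d * M + (s + d)) ∧ F (2 ^ d * M) 0 ∈ X' := by
  induction d with
  | zero => exact ⟨X, Subset.rfl, by simpa using h, by simpa using h0⟩
  | succ d ih =>
    obtain ⟨X', h1, h2, h3⟩ := ih
    obtain ⟨X'', h4, h5, h6, -⟩ := dbl (e := 0) (by simpa using h2) h3 h3 (Nat.zero_le _)
    have h7 : 2 ^ (d + 1) * M = 2 * (2 ^ d * M) := by ring
    exact ⟨X'', h1.trans h4, by rw [h7]; exact h5, by rw [h7]; exact h6⟩

/-- `d` doublings and an addition -/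
lemma blk {X : Finset ℕ} {s M e w o : ℕ} (h : Good X (M + e + s)) (h0 : F M 0 ∈ X)
    (he : F M e ∈ X) (hw : F w o ∈ X) (hle : e ≤ o + w) (hle' : e ≤ M) (ho : o ≤ M) {d : ℕ}
    (hd : 1 ≤ d) :
    ∃ X', X ⊆ X' ∧ Good X' (2 ^ d * M + w + (s + d + 1)) ∧ F (2 ^ d * M + w) 0 ∈ X' := by
  obtain ⟨d, rfl⟩ : ∃ c, d = c + 1 := ⟨d - 1, by omega⟩
  rcases d with _ | d
  · obtain ⟨X', h1, h2, h3⟩ := ins2 h h0 he hw hle ho
    exact ⟨X', h1, by simpa using h2, by simpa using h3⟩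
  · obtain ⟨X1, h1, h2, h3, -⟩ := dbl h h0 he hle'
    obtain ⟨X2, h4, h5, h6⟩ := dbls h2 h3 d
    have h7 : M ≤ 2 ^ d * (2 * M) := by
      have h8 : 1 ≤ 2 ^ d := Nat.one_le_two_pow
      nlinarith
    obtain ⟨X3, h8, h9, h10⟩ := ins2 (e := 0) (by simpa using h5) h6 h6 (h4 (h1 hw))
      (Nat.zero_le _) (ho.trans h7)
    have h11 : 2 ^ (d + 1 + 1) * M = 2 * (2 ^ d * (2 * M)) := by ring
    exact ⟨X3, h1.trans (h4.trans h8), by rw [h11]; exact h9.mono (by omega),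
      by rw [h11]; exact h10⟩

end Pool.Agent.Sch2
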