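import Pool.Agent.Sch2.Good

/-!
# Chains for the members of a family and for `2 ^ n - 1`
-/

set_option autoImplicit false

namespace Pool.Agent.Sch2

open Finset
open Pool.Agent.SchK

section

variable {y : ℕ → ℕ} {l : ℕ}

/-- the part of the cluster which is missing in `cl y i` -/
def tl (y : ℕ → ℕ) (l i : ℕ) : ℕ := ∑ u ∈ Ioc i l, 2 ^ y u

lemma anti (hy : ∀ u < l, y (u + 1) < y u) {i j : ℕ} (hij : i < j) (hj : j ≤ l) : y j < y i := by
  induction j, hij using Nat.le_induction with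
  | base => exact hy i (by omega)
  | succ j hj' ih => exact (hy j (by omega)).trans (ih (by omega))

lemma cl_succ (i : ℕ) : cl y (i + 1) = cl y i + 2 ^ y (i + 1) := by
  unfold cl
  rw [sum_range_succ]

lemma cl_zero : cl y 0 = 2 ^ y 0 := by
  simp [cl]

lemma tl_succ {i : ℕ} (hi : i < l) : tl y l i = tl y l (i + 1) + 2 ^ y (i + 1) := by
  unfold tl
  have h1 : Ioc i l = insert (i + 1) (Ioc (i + 1) l) := by
    ext u
    simp only [mem_insert, mem_Ioc]
    omega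
  rw [h1, sum_insert (by simp), add_comm]

lemma tl_self : tl y l l = 0 := by
  simp [tl]

lemma cl_add_tl {i : ℕ} (hi : i ≤ l) : cl y i + tl y l i = cl y l := by
  induction i with
  | zero =>
    have h1 : ∀ m, m ≤ l → cl y m + tl y l m = cl y 0 + tl y l 0 := by
      intro m
      induction m with
      | zero => intro _; rfl
      | succ m ih =>
        intro hm
        rw [← ih (by omega), tl_succ (i := m) (by omega), cl_succ]
        ring
    have h2 := h1 l le_rfl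
    rw [tl_self, add_zero] at h2
    exact h2.symm
  | succ i ih =>
    rw [← ih (by omega), tl_succ (i := i) (by omega), cl_succ]
    ring

lemma tl_le (hy : ∀ u < l, y (u + 1) < y u) {i : ℕ} (hi : i ≤ l) : tl y l i ≤ 2 ^ y i := by
  have key : ∀ k i, i + k = l → tl y l i ≤ 2 ^ y i := by
    intro k
    induction k with
    | zero =>
      intro i hi
      obtain rfl : i = l := by omega
      rw [tl_self]
      exact Nat.zero_le _
    | succ k ih =>
      intro i hi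
      have h1 := ih (i + 1) (by omega)
      have h2 : 2 ^ (y (i + 1) + 1) ≤ 2 ^ y i :=
        Nat.pow_le_pow_right (by norm_num) (hy i (by omega))
      rw [tl_succ (i := i) (by omega)]
      rw [pow_succ] at h2
      omega
  exact key (l - i) i (by omega)

lemma tl_le_tl {i : ℕ} : tl y l i ≤ tl y l 0 := by
  unfold tl
  apply sum_le_sum_of_subset
  intro u hu
  rw [mem_Ioc] at hu ⊢
  omega

/-- the powers of two, lifted -/
lemma pow_lift (x : ℕ) : ∃ X, Good X (2 ^ x + x) ∧ F (2 ^ x) 0 ∈ X ∧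
    ∀ z < x, ∀ v ≤ 2 ^ z, F (2 ^ z) v ∈ X := by
  induction x with
  | zero =>
    refine ⟨{1}, good_one, by simp [F], fun z hz => by omega⟩
  | succ x ih =>
    obtain ⟨X, h1, h2, h3⟩ := ih
    obtain ⟨X', h4, h5, h6, h7⟩ := dbl (e := 0) h1 h2 h2 (Nat.zero_le _)
    have h8 : 2 ^ (x + 1) = 2 * 2 ^ x := by ring
    refine ⟨X', by rw [h8]; exact h5, by rw [h8]; exact h6, fun z hz v hv => ?_⟩
    rcases Nat.lt_or_ge z x with hz' | hz'
    · exact h4 (h3 z hz' v hv)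
    · obtain rfl : z = x := by omega
      exact h7 v (Nat.zero_le _) hv

/-- the cluster, lifted -/
lemma cl_lift (hy : ∀ u < l, y (u + 1) < y u) : ∃ X, Good X (2 ^ y 0 + tl y l 0 + (y 0 + l)) ∧
    F (2 ^ y 0) 0 ∈ X ∧ ∀ i ≤ l, F (cl y i) (tl y l i) ∈ X := by
  obtain ⟨X0, g1, g2, g3⟩ := pow_lift (y 0)
  obtain ⟨X, g4, h1, g5⟩ := g1.shift g2 (tl y l 0)
  have h2 : F (2 ^ y 0) (tl y l 0) ∈ X := by
    have := g5 _ le_rfl
    rwa [F_shift, zero_add] at this
  have key : ∀ j, j ≤ l → ∃ X', X ⊆ X' ∧ Good X' (2 ^ y 0 + y 0 + tl y l 0 + j) ∧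
      ∀ i ≤ j, F (cl y i) (tl y l i) ∈ X' := by
    intro j
    induction j with
    | zero =>
      intro _
      refine ⟨X, Subset.rfl, h1, fun i hi => ?_⟩
      obtain rfl : i = 0 := by omega
      rw [cl_zero]
      exact h2
    | succ j ih =>
      intro hj
      obtain ⟨X', h3, h4, h5⟩ := ih (by omega)
      have h6 := h5 j le_rfl
      rw [tl_succ (i := j) (by omega)] at h6
      have h7 : F (2 ^ y (j + 1)) (tl y l (j + 1)) ∈ X' :=
        h3 (g4 (g3 _ (anti hy (Nat.succ_pos j) hj) _ (tl_le hy hj)))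
      refine ⟨insert (F (cl y j) (tl y l (j + 1) + 2 ^ y (j + 1)) +
        F (2 ^ y (j + 1)) (tl y l (j + 1))) X', h3.trans (subset_insert _ _), h4.ins h6 h7,
        fun i hi => ?_⟩
      rcases Nat.lt_or_ge i (j + 1) with hi' | hi'
      · exact mem_insert_of_mem (h5 i (by omega))
      · obtain rfl : i = j + 1 := by omega
        rw [cl_succ, F_add]
        exact mem_insert_self _ _
  obtain ⟨X', h8, h3, h4⟩ := key l le_rfl
  exact ⟨X', h3.mono (by omega), h8 (g4 g2), h4⟩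

lemma two_pow_le_ml (y ε d : ℕ → ℕ) (t : ℕ) :
    2 ^ (y 0 + ∑ u ∈ range t, d u) ≤ ml y ε d t := by
  induction t with
  | zero => simp [ml]
  | succ t ih =>
    rw [sum_range_succ, ← add_assoc, pow_add, mul_comm]
    simp only [ml]
    exact (Nat.mul_le_mul_left _ ih).trans (Nat.le_add_right _ _)

/-- the main line, lifted -/
lemma ml_lift (hy : ∀ u < l, y (u + 1) < y u) {ε d : ℕ → ℕ} {p : ℕ} (hε : ∀ t < p, ε t ≤ l)
    (hd : ∀ t < p, 1 ≤ d t) :
    ∀ t, t < p → ∃ X, Good X (ml y ε d (t + 1) + (y 0 + l + ∑ u ∈ range (t + 1), d u + (t + 1))) ∧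
      F (ml y ε d (t + 1)) 0 ∈ X ∧ ∀ j ≤ l, F (cl y j) (tl y l j) ∈ X := by
  intro t
  induction t with
  | zero =>
    intro ht
    obtain ⟨X, h1, h2, h3⟩ := cl_lift hy
    have hε0 := hε 0 ht
    have h4 : tl y l 0 ≤ tl y l (ε 0) + cl y (ε 0) := by
      have h5 := cl_add_tl (y := y) hε0
      have h6 := cl_add_tl (y := y) (Nat.zero_le l)
      omega
    have h5 : F (2 ^ y 0) (tl y l 0) ∈ X := by
      have := h3 0 (Nat.zero_le _)
      rwa [cl_zero] at this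
    obtain ⟨X', h6, h7, h8⟩ := blk h1 h2 h5 (h3 _ hε0) h4 (tl_le hy (Nat.zero_le _))
      ((tl_le_tl (y := y)).trans (tl_le hy (Nat.zero_le _))) (hd 0 ht)
    refine ⟨X', h7.mono ?_, h8, fun j hj => h6 (h3 j hj)⟩
    simp only [ml, zero_add, sum_range_one]
    omega
  | succ t ih =>
    intro ht
    obtain ⟨X, h1, h2, h3⟩ := ih (by omega)
    have hε0 := hε (t + 1) ht
    have h4 : tl y l (ε (t + 1)) ≤ ml y ε d (t + 1) := by
      refine (tl_le_tl (y := y)).trans ((tl_le hy (Nat.zero_le _)).trans ?_)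
      refine le_trans ?_ (two_pow_le_ml y ε d (t + 1))
      exact Nat.pow_le_pow_right (by norm_num) (Nat.le_add_right _ _)
    obtain ⟨X', h6, h7, h8⟩ := blk (e := 0) (by simpa using h1) h2 h2 (h3 _ hε0)
      (Nat.zero_le _) (Nat.zero_le _) h4 (hd (t + 1) ht)
    refine ⟨X', h7.mono ?_, h8, fun j hj => h6 (h3 j hj)⟩
    rw [sum_range_succ _ (t + 1), show ml y ε d (t + 1 + 1) =
      2 ^ d (t + 1) * ml y ε d (t + 1) + cl y (ε (t + 1)) from rfl]
    omega

/-- the chain for `2 ^ n - 1` -/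
theorem len_two_pow_le (hy : ∀ u < l, y (u + 1) < y u) {ε d : ℕ → ℕ} {p : ℕ}
    (hε : ∀ t < p, ε t ≤ l) (hd : ∀ t < p, 1 ≤ d t) (hp : 1 ≤ p) :
    len (2 ^ ml y ε d p - 1) + 1 ≤ ml y ε d p + (y 0 + l + ∑ u ∈ range p, d u + p) := by
  obtain ⟨q, rfl⟩ : ∃ q, p = q + 1 := ⟨p - 1, by omega⟩
  obtain ⟨X, h3, h4, -⟩ := ml_lift (d := d) hy hε hd q (Nat.lt_succ_self q)
  have h6 : F (ml y ε d (q + 1)) 0 = 2 ^ ml y ε d (q + 1) - 1 := by simp [F]
  rw [h6] at h4
  exact h3.len_le h4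

/-! ### The chain for `n` -/

lemma pow_set (x : ℕ) : ∃ X, Good X (x + 1) ∧ ∀ z ≤ x, 2 ^ z ∈ X := by
  obtain ⟨X, -, h1, h2⟩ := good_one.shift (y := 1) (by simp) x
  exact ⟨X, h1.mono (by omega), fun z hz => by simpa using h2 z hz⟩

lemma cl_set (hy : ∀ u < l, y (u + 1) < y u) : ∃ X, Good X (y 0 + 1 + l) ∧
    ∀ i ≤ l, cl y i ∈ X := by
  obtain ⟨X, h1, h2⟩ := pow_set (y 0)
  have key : ∀ j, j ≤ l → ∃ X', X ⊆ X' ∧ Good X' (y 0 + 1 + j) ∧ ∀ i ≤ j, cl y i ∈ X' := by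
    intro j
    induction j with
    | zero =>
      intro _
      refine ⟨X, Subset.rfl, h1, fun i hi => ?_⟩
      obtain rfl : i = 0 := by omega
      rw [cl_zero]
      exact h2 _ le_rfl
    | succ j ih =>
      intro hj
      obtain ⟨X', h3, h4, h5⟩ := ih (by omega)
      have h7 : 2 ^ y (j + 1) ∈ X' := h3 (h2 _ (anti hy (Nat.succ_pos j) hj).le)
      refine ⟨insert (cl y j + 2 ^ y (j + 1)) X', h3.trans (subset_insert _ _),
        h4.ins (h5 j le_rfl) h7, fun i hi => ?_⟩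
      rcases Nat.lt_or_ge i (j + 1) with hi' | hi'
      · exact mem_insert_of_mem (h5 i (by omega))
      · obtain rfl : i = j + 1 := by omega
        rw [cl_succ]
        exact mem_insert_self _ _
  obtain ⟨X', -, h3, h4⟩ := key l le_rfl
  exact ⟨X', h3, h4⟩

lemma ml_set (hy : ∀ u < l, y (u + 1) < y u) {ε d : ℕ → ℕ} {p : ℕ} (hε : ∀ t < p, ε t ≤ l) :
    ∀ t, t ≤ p → ∃ X, Good X (y 0 + 1 + l + ∑ u ∈ range t, d u + t) ∧ ml y ε d t ∈ X ∧
      ∀ j ≤ l, cl y j ∈ X := by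
  intro t
  induction t with
  | zero =>
    intro _
    obtain ⟨X, h1, h2⟩ := cl_set hy
    refine ⟨X, by simpa using h1, ?_, h2⟩
    have := h2 0 (Nat.zero_le _)
    rw [cl_zero] at this
    exact this
  | succ t ih =>
    intro ht
    obtain ⟨X, h1, h2, h3⟩ := ih (by omega)
    obtain ⟨X', h4, h5, h6⟩ := h1.shift h2 (d t)
    refine ⟨insert (2 ^ d t * ml y ε d t + cl y (ε t)) X',
      (h5.ins (h6 _ le_rfl) (h4 (h3 _ (hε t (by omega))))).mono ?_, mem_insert_self _ _,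
      fun j hj => mem_insert_of_mem (h4 (h3 j hj))⟩
    rw [sum_range_succ]
    omega

theorem len_ml_le (hy : ∀ u < l, y (u + 1) < y u) {ε d : ℕ → ℕ} {p : ℕ}
    (hε : ∀ t < p, ε t ≤ l) :
    ∃ r a, r ≤ y 0 + l + ∑ u ∈ range p, d u + p ∧ IsChain (ml y ε d p) r a := by
  obtain ⟨X, h1, h2, -⟩ := ml_set (d := d) hy hε p le_rfl
  obtain ⟨r, a, hr, ha⟩ := h1.chain h2
  exact ⟨r, a, by omega, ha⟩

/-- a member without a shorter chain satisfies Scholz's inequality -/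
theorem Fam.scholz {l p : ℕ} {ε : ℕ → ℕ} {n : ℕ} (h : Fam l p ε n) (hε : ∀ t < p, ε t ≤ l)
    (hp : 1 ≤ p) (hn : ¬ ∃ r a, r ≤ Nat.log 2 n + (l + p - 1) ∧ IsChain n r a) :
    len n = Nat.log 2 n + l + p ∧ len (2 ^ n - 1) ≤ n - 1 + len n := by
  obtain ⟨y, d, hy, hd, rfl⟩ := h
  obtain ⟨r, a, hr, ha⟩ := len_ml_le (d := d) hy hε
  have h1 := len_two_pow_le (d := d) hy hε hd hp
  have h2 := two_pow_le_ml y ε d p
  have h3 : y 0 + ∑ u ∈ range p, d u ≤ Nat.log 2 (ml y ε d p) :=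
    Nat.le_log_of_pow_le (by norm_num) h2
  have h4 : 1 ≤ ml y ε d p := Nat.one_le_two_pow.trans h2
  have h5 : ∃ b, IsChain (ml y ε d p) (len (ml y ε d p)) b :=
    Nat.sInf_mem (s := {r | ∃ a, IsChain (ml y ε d p) r a}) ⟨r, a, ha⟩
  obtain ⟨b, hb⟩ := h5
  have h6 : Nat.log 2 (ml y ε d p) + (l + p - 1) < len (ml y ε d p) := by
    by_contra hc
    exact hn ⟨_, b, not_lt.1 hc, hb⟩
  have h7 : len (ml y ε d p) ≤ r := Nat.sInf_le ⟨a, ha⟩
  omega

end

end Pool.Agent.Sch2
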