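import Pool.Agent.Sch2.Lift

/-!
# The number of binary ones of a member
-/

set_option autoImplicit false

namespace Pool.Agent.Sch2

open Finset
open Pool.Agent.SchK

lemma ones_pow_mul_add (d : ℕ) : ∀ x b, b < 2 ^ d → ones (2 ^ d * x + b) = ones x + ones b := by
  induction d with
  | zero =>
    intro x b hb
    obtain rfl : b = 0 := by omega
    rw [ones_zero]
    simp
  | succ d ih =>
    intro x b hb
    rw [pow_succ] at hb
    rcases Nat.even_or_odd' b with ⟨c, rfl | rfl⟩
    · have h1 : 2 ^ (d + 1) * x + 2 * c = 2 * (2 ^ d * x + c) := by ring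
      rw [h1, ones_two_mul, ones_two_mul, ih x c (by omega)]
    · have h1 : 2 ^ (d + 1) * x + (2 * c + 1) = 2 * (2 ^ d * x + c) + 1 := by ring
      rw [h1, ones_two_mul_add_one, ones_two_mul_add_one, ih x c (by omega)]
      ring

lemma ones_pow_mul (d x : ℕ) : ones (2 ^ d * x) = ones x := by
  have h1 := ones_pow_mul_add d x 0 (by positivity)
  rwa [add_zero, ones_zero, add_zero] at h1

lemma ones_two_pow (k : ℕ) : ones (2 ^ k) = 1 := by
  have h1 := ones_pow_mul k 1
  rwa [mul_one, ones_one] at h1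

variable {y : ℕ → ℕ} {l : ℕ}

lemma pow_dvd_cl (hy : ∀ u < l, y (u + 1) < y u) {i : ℕ} (hi : i ≤ l) : 2 ^ y i ∣ cl y i := by
  induction i with
  | zero => rw [cl_zero]
  | succ i ih =>
    rw [cl_succ]
    exact dvd_add ((pow_dvd_pow 2 (hy i (by omega)).le).trans (ih (by omega))) dvd_rfl

lemma ones_cl (hy : ∀ u < l, y (u + 1) < y u) {i : ℕ} (hi : i ≤ l) :
    ones (cl y i) = i + 1 := by
  induction i with
  | zero => rw [cl_zero, ones_two_pow]
  | succ i ih =>
    obtain ⟨q, hq⟩ := pow_dvd_cl hy (i := i) (by omega)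
    have h1 := ih (by omega)
    rw [hq, ones_pow_mul] at h1
    rw [cl_succ, hq, ones_pow_mul_add _ _ _
      (Nat.pow_lt_pow_right (by norm_num) (hy i (by omega))), h1, ones_two_pow]

lemma ones_ml (hy : ∀ u < l, y (u + 1) < y u) {ε d : ℕ → ℕ} {p : ℕ} (hε : ∀ t < p, ε t ≤ l)
    (hd : ∀ t < p, y 0 + 1 ≤ d t) (hc : ∀ i ≤ l, cl y i < 2 ^ (y 0 + 1)) :
    ∀ t, t ≤ p → ones (ml y ε d t) = t + 1 + ∑ u ∈ range t, ε u := by
  intro t
  induction t with
  | zero => intro _; simp [ml, ones_two_pow]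
  | succ t ih =>
    intro ht
    have hεt := hε t (by omega)
    have h1 : cl y (ε t) < 2 ^ d t :=
      (hc _ hεt).trans_le (Nat.pow_le_pow_right (by norm_num) (hd t (by omega)))
    simp only [ml]
    rw [ones_pow_mul_add _ _ _ h1, ih (by omega), ones_cl hy hεt, sum_range_succ]
    ring

end Pool.Agent.Sch2
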